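import Pool.Agent.helper26.T5.SpecH

set_option autoImplicit false

/-!
# T6L, block G: primitive ideals up to fifth powers
-/

namespace Pool.Agent.helper4.T6L

open Finset NumberField Pool.Agent.helper3.FT Pool.Agent.helper47.RA Pool.Agent.T5 Pool.Agent.helper26.T5

variable {K : Type} [Field K] [NumberField K]

theorem prim_dvd {I J : Ideal (𝓞 K)} (h : I ∣ J) (hJ : Prim J) : Prim I :=
  fun q hq hqI => hJ q hq (hqI.trans h)

/-- for a prime ideal `P` of prime norm `p` dividing a primitive ideal `A`: `p ^ j ∣ N A` gives `P ^ j ∣ A` -/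
theorem pow_dvd_of_norm (hLPA : LPA) (Q : QF K) (p : ℕ) (hp : p.Prime) (P : Ideal (𝓞 K))
    (hP : Ideal.absNorm P = p) : ∀ (j : ℕ) (A : Ideal (𝓞 K)), A ≠ ⊥ → Prim A → P ∣ A →
    p ^ j ∣ Ideal.absNorm A → P ^ j ∣ A := by
  intro j
  induction j with
  | zero =>
    intro A _ _ _ _
    rw [pow_zero]
    exact one_dvd A
  | succ j ih =>
    intro A hA hprim hPA hj
    obtain ⟨A₁, rfl⟩ := hPA
    have hP0 : P ≠ ⊥ := left_ne_zero_of_mul hA
    have hA₁ : A₁ ≠ ⊥ := right_ne_zero_of_mul hA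
    rw [pow_succ']
    refine mul_dvd_mul_left P ?_
    rcases Nat.eq_zero_or_pos j with h0 | hpos
    · rw [h0, pow_zero]
      exact one_dvd A₁
    have hprim₁ : Prim A₁ := prim_dvd (Dvd.intro_left P rfl) hprim
    rw [map_mul, hP, pow_succ'] at hj
    have hj' : p ^ j ∣ Ideal.absNorm A₁ := Nat.dvd_of_mul_dvd_mul_left hp.pos hj
    have hpA : p ∣ Ideal.absNorm A₁ := (dvd_pow_self p (by omega)).trans hj'
    have hn := hLPA K Q A₁ p hprim₁ hA₁ hp hpA
    set P₁ : Ideal (𝓞 K) := A₁ ⊔ Ideal.span {(p : 𝓞 K)} with hP₁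
    have hd1 : P₁ ∣ A₁ := Ideal.dvd_iff_le.2 le_sup_left
    have hd2 : P₁ ∣ Ideal.span {(p : 𝓞 K)} := Ideal.dvd_iff_le.2 le_sup_right
    have hpr : Prime P₁ := h96_prime_of_norm hp hn
    have hpp : Ideal.span {(p : 𝓞 K)} = P * Q.bar P := by
      rw [Q.mul_bar, hP]
    rw [hpp] at hd2
    have hPP : P₁ = P := by
      rcases hpr.dvd_or_dvd hd2 with h | h
      · exact h96_eq_of_dvd h (by rw [hP]; exact hp.ne_zero) (by rw [hn, hP])
      · exfalso
        have h1 : P₁ = Q.bar P := h96_eq_of_dvd h (by rw [Q.absNorm_bar, hP]; exact hp.ne_zero)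
          (by rw [Q.absNorm_bar, hn, hP])
        apply hprim p hp
        rw [hpp, ← h1]
        exact mul_dvd_mul_left P hd1
    exact ih A₁ hA₁ hprim₁ (hPP ▸ hd1) hj'

/-- a primitive ideal is a fifth power times an ideal of fifth-power-free norm -/
theorem gp5 (hLPA : LPA) (Q : QF K) : ∀ (n : ℕ) (A : Ideal (𝓞 K)), A ≠ ⊥ → Prim A → Ideal.absNorm A = n →
    ∃ a B : Ideal (𝓞 K), A = a ^ 5 * B ∧ ∀ p : ℕ, p.Prime → ¬ p ^ 5 ∣ Ideal.absNorm B := by
  intro n
  induction n using Nat.strong_induction_on with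
  | _ n ih =>
    intro A hA hprim hn
    by_cases h : ∃ p : ℕ, p.Prime ∧ p ^ 5 ∣ Ideal.absNorm A
    · obtain ⟨p, hp, hpA⟩ := h
      have hpA1 : p ∣ Ideal.absNorm A := (dvd_pow_self p (by norm_num)).trans hpA
      have hn1 := hLPA K Q A p hprim hA hp hpA1
      set P : Ideal (𝓞 K) := A ⊔ Ideal.span {(p : 𝓞 K)} with hPdef
      have hd1 : P ∣ A := Ideal.dvd_iff_le.2 le_sup_left
      obtain ⟨A₁, hA₁⟩ := pow_dvd_of_norm hLPA Q p hp P hn1 5 A hA hprim hd1 hpA
      have hA₁0 : A₁ ≠ ⊥ := by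
        rw [hA₁] at hA
        exact right_ne_zero_of_mul hA
      have hprim₁ : Prim A₁ := prim_dvd (hA₁ ▸ Dvd.intro_left _ rfl) hprim
      have hnorm : Ideal.absNorm A = p ^ 5 * Ideal.absNorm A₁ := by
        conv_lhs => rw [hA₁]
        rw [map_mul, map_pow, hn1]
      have hpos : 0 < Ideal.absNorm A₁ := Nat.pos_of_ne_zero (by
        rw [Ne, Ideal.absNorm_eq_zero_iff]
        exact hA₁0)
      have hlt : Ideal.absNorm A₁ < n := by
        rw [← hn, hnorm]
        have h2 : 2 ≤ p := hp.two_le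
        have h3 : 2 ^ 5 ≤ p ^ 5 := Nat.pow_le_pow_left h2 5
        nlinarith
      obtain ⟨a, B, hB, hfree⟩ := ih _ hlt A₁ hA₁0 hprim₁ rfl
      refine ⟨P * a, B, ?_, hfree⟩
      rw [hA₁, hB]
      ring
    · push Not at h
      exact ⟨1, A, by rw [one_pow, one_mul], h⟩

end Pool.Agent.helper4.T6L
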