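import Pool.Agent.helper4.T6L.Lift
import Pool.Agent.helper4.T6L.GP5

set_option autoImplicit false

/-!
# T6L, block G: decomposition of the generator `θ` of a tuple

`θ = q θ₁`, `q` the part of the content of `θ` composed of primes of `f`; `r = f / gcd (f, q)` divides
`Y θ₁` and is coprime to the norm of `θ₁`; `(θ₁) = a⁵ A` with `a` primitive and `A ∣ f⁴`.
-/

namespace Pool.Agent.helper4.T6L

open Finset NumberField Pool.Agent.helper3.FT Pool.Agent.helper47.RA Pool.Agent.T5 Pool.Agent.helper26.T5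
open Pool.Agent.helper28.LT (FA_split)

/-- the loss of one conductor -/
def G1 (f : ℕ) : ℕ := ∏ p ∈ f.primeFactors, p ^ (3 * f.factorization p / 5)

theorem G1_pos (f : ℕ) : 1 ≤ G1 f :=
  Nat.one_le_iff_ne_zero.2 (Finset.prod_ne_zero_iff.2 fun _ hp =>
    pow_ne_zero _ (Nat.prime_of_mem_primeFactors hp).ne_zero)

theorem G1_factorization (f p : ℕ) (hp : p.Prime) (hpf : p ∣ f) (hf : f ≠ 0) :
    (G1 f).factorization p = 3 * f.factorization p / 5 := by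
  unfold G1
  rw [Nat.factorization_prod (fun q hq => pow_ne_zero _ (Nat.prime_of_mem_primeFactors hq).ne_zero),
    Finsupp.finsetSum_apply]
  rw [Finset.sum_eq_single p]
  · rw [Nat.Prime.factorization_pow hp, Finsupp.single_eq_same]
  · intro q hq hne
    rw [Nat.Prime.factorization_pow (Nat.prime_of_mem_primeFactors hq), Finsupp.single_eq_of_ne (Ne.symm hne)]
  · intro h
    exact absurd (Nat.mem_primeFactors.2 ⟨hp, hpf, hf⟩) h

/-- **GIN** -/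
theorem gin (f q b h : ℕ) (hf : 1 ≤ f) (hq : 1 ≤ q) (hb : 1 ≤ b) (hh : 1 ≤ h) (e : b ^ 5 = q ^ 2 * h) :
    Nat.gcd f q ∣ b * G1 f := by
  have hg0 : Nat.gcd f q ≠ 0 := (Nat.gcd_pos_of_pos_left q (by omega)).ne'
  have hr0 : b * G1 f ≠ 0 := Nat.mul_ne_zero (by omega) (by have := G1_pos f; omega)
  rw [← Nat.factorization_le_iff_dvd hg0 hr0]
  intro p
  by_cases hp : p.Prime
  · by_cases hpf : p ∣ f
    · rw [Nat.factorization_gcd (by omega) (by omega), Finsupp.inf_apply,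
        Nat.factorization_mul (by omega) (by have := G1_pos f; omega), Finsupp.add_apply,
        G1_factorization f p hp hpf (by omega)]
      have h1 := congrArg (fun n => n.factorization p) e
      simp only [Nat.factorization_pow, Nat.factorization_mul (pow_ne_zero 2 (show q ≠ 0 by omega))
        (show h ≠ 0 by omega), Finsupp.add_apply, Finsupp.smul_apply, smul_eq_mul] at h1
      have h2 := min_le_left (f.factorization p) (q.factorization p)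
      have h3 := min_le_right (f.factorization p) (q.factorization p)
      change min (f.factorization p) (q.factorization p) ≤ _
      omega
    · have h1 : ¬ p ∣ Nat.gcd f q := fun h => hpf (h.trans (Nat.gcd_dvd_left f q))
      rw [Nat.factorization_eq_zero_of_not_dvd h1]
      exact Nat.zero_le _
  · rw [Nat.factorization_eq_zero_of_not_prime _ hp]
    exact Nat.zero_le _

variable {K : Type} [Field K] [NumberField K]

/-- `γ⁵ = θ̄ θ'²` and `α⁵ = θ² θ'` -/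
theorem pow5 {Q : QF K} {f : ℕ} {t : Tpl} {α γ u v θ θ' : 𝓞 K} (hE : Els Q f t α γ u v θ θ') (hZ : 0 < t.2.2.2)
    (hL : 0 < lam t) : α ^ 5 = θ ^ 2 * θ' ∧ γ ^ 5 = Q.cj θ * θ' ^ 2 ∧
      θ * Q.cj θ = ((t.2.2.2 : ℤ) : 𝓞 K) ^ 5 := by
  have hZ0 : ((t.2.2.2 : ℤ) : 𝓞 K) ≠ 0 := by
    intro h
    exact hZ.ne' (QF.int_inj (K := K) (by rw [h, Int.cast_zero]))
  have hL0 : ((lam t : ℤ) : 𝓞 K) ≠ 0 := by
    intro h
    exact hL.ne' (QF.int_inj (K := K) (by rw [h, Int.cast_zero]))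
  have e3 := hE.e3
  have e4 := hE.e4
  have nα := hE.nα
  have nγ := hE.nγ
  have e3' : Q.cj α ^ 2 * γ = ((lam t : ℤ) : 𝓞 K) ^ 2 * Q.cj θ := by
    have h := congrArg Q.cj e3
    rw [map_mul, map_pow, map_mul, map_pow, Q.cj_cj, Q.cj_int] at h
    exact h
  refine ⟨?_, ?_, ?_⟩
  · refine mul_left_cancel₀ (mul_ne_zero (pow_ne_zero 4 hL0) (pow_ne_zero 2 hZ0)) ?_
    calc ((lam t : ℤ) : 𝓞 K) ^ 4 * ((t.2.2.2 : ℤ) : 𝓞 K) ^ 2 * α ^ 5
        = (((t.2.2.2 : ℤ) : 𝓞 K) * ((lam t : ℤ) : 𝓞 K) ^ 2) ^ 2 * α ^ 5 := by ring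
      _ = (γ * Q.cj γ) ^ 2 * α ^ 5 := by rw [nγ]
      _ = (α ^ 2 * Q.cj γ) ^ 2 * (γ ^ 2 * α) := by ring
      _ = _ := by
        rw [e3, e4]
        ring
  · refine mul_left_cancel₀ (mul_ne_zero (pow_ne_zero 4 hZ0) (pow_ne_zero 2 hL0)) ?_
    calc ((t.2.2.2 : ℤ) : 𝓞 K) ^ 4 * ((lam t : ℤ) : 𝓞 K) ^ 2 * γ ^ 5
        = (((t.2.2.2 : ℤ) : 𝓞 K) ^ 2 * ((lam t : ℤ) : 𝓞 K)) ^ 2 * γ ^ 5 := by ring
      _ = (α * Q.cj α) ^ 2 * γ ^ 5 := by rw [nα]
      _ = (Q.cj α ^ 2 * γ) * (γ ^ 2 * α) ^ 2 := by ring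
      _ = _ := by
        rw [e3', e4]
        ring
  · refine mul_left_cancel₀ (pow_ne_zero 4 hL0) ?_
    calc ((lam t : ℤ) : 𝓞 K) ^ 4 * (θ * Q.cj θ)
        = (((lam t : ℤ) : 𝓞 K) ^ 2 * θ) * (((lam t : ℤ) : 𝓞 K) ^ 2 * Q.cj θ) := by ring
      _ = (α ^ 2 * Q.cj γ) * (Q.cj α ^ 2 * γ) := by rw [← e3, ← e3']
      _ = (α * Q.cj α) ^ 2 * (γ * Q.cj γ) := by ring
      _ = _ := by
        rw [nα, nγ]
        ring

/-- **GCT** the content of `θ` is bounded by the conductor -/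
theorem gct {Q : QF K} {f : ℕ} {t : Tpl} {α γ u v θ θ' : 𝓞 K} (hE : Els Q f t α γ u v θ θ') (hT : IsT t)
    (hf : 1 ≤ f) (hZ : 0 < t.2.2.2) (hL : 0 < lam t) (p : ℕ) (hp : p.Prime) (c : ℕ)
    (hc : (p : 𝓞 K) ^ c ∣ θ) : c ≤ 5 * f.factorization p + 4 := by
  by_contra hcon
  push Not at hcon
  obtain ⟨h1, h2, -⟩ := pow5 hE hZ hL
  obtain ⟨a, ha⟩ : ∃ a, a = f.factorization p := ⟨_, rfl⟩
  rw [← ha] at hcon
  have hd : ((p : 𝓞 K) ^ (a + 1)) ^ 5 ∣ θ := by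
    rw [← pow_mul]
    exact (pow_dvd_pow _ (by omega)).trans hc
  have hα : (p : 𝓞 K) ^ (a + 1) ∣ α := by
    have h3 : ((p : 𝓞 K) ^ (a + 1)) ^ 5 ∣ α ^ 5 := by
      rw [h1, pow_two]
      exact (hd.mul_right _).mul_right _
    exact (IsIntegrallyClosed.pow_dvd_pow_iff (by norm_num)).1 h3
  have hγ : (p : 𝓞 K) ^ (a + 1) ∣ γ := by
    have h3 : ((p : 𝓞 K) ^ (a + 1)) ^ 5 ∣ γ ^ 5 := by
      rw [h2]
      have h4 : ((p : 𝓞 K) ^ (a + 1)) ^ 5 ∣ Q.cj θ := by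
        obtain ⟨w, hw⟩ := hd
        refine ⟨Q.cj w, ?_⟩
        rw [hw, map_mul, map_pow, map_pow, map_natCast]
      exact h4.mul_right _
    exact (IsIntegrallyClosed.pow_dvd_pow_iff (by norm_num)).1 h3
  have hY : ∀ x : 𝓞 K, (p : 𝓞 K) ^ (a + 1) ∣ x → ((p : ℤ) ^ (a + 1)) ∣ Q.Y x := by
    rintro x ⟨w, rfl⟩
    have h3 : (p : 𝓞 K) ^ (a + 1) = (((p : ℤ) ^ (a + 1) : ℤ) : 𝓞 K) := by push_cast; rfl
    rw [h3, Q.Y_int_mul]
    exact Dvd.intro _ rfl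
  have h3 := hY α hα
  have h4 := hY γ hγ
  rw [hE.yα] at h3
  rw [hE.yγ] at h4
  have h3' : p ^ (a + 1) ∣ f * t.1.1 := by exact_mod_cast h3
  have h4' : p ^ (a + 1) ∣ f * t.1.2 := by exact_mod_cast h4
  have h5 : p ^ (a + 1) ∣ f := by
    have h6 := Nat.dvd_gcd h3' h4'
    rwa [Nat.gcd_mul_left, hT.co, mul_one] at h6
  have h6 := (Nat.Prime.pow_dvd_iff_le_factorization hp (by omega : f ≠ 0)).1 h5
  omega

end Pool.Agent.helper4.T6L
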