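import Pool.Agent.helper4.T6L.Dec

set_option autoImplicit false

/-!
# T6L, block G: decomposition of the generator `θ` of a tuple (main part)
-/

namespace Pool.Agent.helper4.T6L

open Finset NumberField Pool.Agent.helper3.FT Pool.Agent.helper47.RA Pool.Agent.T5 Pool.Agent.helper26.T5
open Pool.Agent.helper28.LT (FA_split)

variable {K : Type} [Field K] [NumberField K]

/-- the decomposition `θ = q θ₁`, `(θ₁) = a⁵ A`, `r = f / gcd (f, q)` -/
structure DC (Q : QF K) (f q b : ℕ) (A a : Ideal (𝓞 K)) (θ : 𝓞 K) : Prop where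
  q1 : 1 ≤ q
  b1 : 1 ≤ b
  ne : a ≠ ⊥
  pa : Prim a
  th : ∃ θ₁ : 𝓞 K, θ = (q : 𝓞 K) * θ₁ ∧ Ideal.span {θ₁} = a ^ 5 * A ∧
    ((f / Nat.gcd f q : ℕ) : ℤ) ∣ Q.Y θ₁
  co : Nat.Coprime (Ideal.absNorm a) (f / Nat.gcd f q)
  co' : Nat.Coprime (Ideal.absNorm A) (f / Nat.gcd f q)
  hb : b ^ 5 = q ^ 2 * Ideal.absNorm A

theorem norm_ne_zero {a : Ideal (𝓞 K)} (ha : a ≠ ⊥) : Ideal.absNorm a ≠ 0 := by
  rw [Ne, Ideal.absNorm_eq_zero_iff]
  exact ha

/-- an ideal of norm coprime to `q` is coprime to `(q)` -/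
theorem coprime_of_norm (I : Ideal (𝓞 K)) (q : ℕ) (h : Nat.Coprime (Ideal.absNorm I) q) :
    IsCoprime I (Ideal.span {(q : 𝓞 K)}) := by
  rw [Ideal.isCoprime_iff_sup_eq]
  rw [Ideal.eq_top_iff_one]
  have h1 : IsCoprime ((Ideal.absNorm I : ℕ) : ℤ) ((q : ℕ) : ℤ) := Nat.isCoprime_iff_coprime.2 h
  obtain ⟨u, v, huv⟩ := h1
  have h2 : (1 : 𝓞 K) = (u : 𝓞 K) * ((Ideal.absNorm I : ℕ) : 𝓞 K) + (v : 𝓞 K) * (q : 𝓞 K) := by
    have h3 := congrArg (fun z : ℤ => (z : 𝓞 K)) huv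
    push_cast at h3
    exact h3.symm
  rw [h2]
  refine Submodule.add_mem_sup (Ideal.mul_mem_left _ _ (Ideal.absNorm_mem I)) ?_
  exact Ideal.mul_mem_left _ _ (Ideal.mem_span_singleton_self _)

/-- cancel an ideal whose norm is coprime to `q` -/
theorem span_dvd_of_mul (I J : Ideal (𝓞 K)) (q : ℕ) (h : Nat.Coprime (Ideal.absNorm I) q)
    (hd : Ideal.span {(q : 𝓞 K)} ∣ I * J) : Ideal.span {(q : 𝓞 K)} ∣ J :=
  (coprime_of_norm I q h).symm.dvd_of_dvd_mul_left hd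

theorem span_nat_ne_bot (q : ℕ) (hq : 1 ≤ q) : Ideal.span {(q : 𝓞 K)} ≠ ⊥ := by
  rw [Ne, Ideal.span_singleton_eq_bot]
  exact_mod_cast (by omega : q ≠ 0)

/-- **GDEC** -/
theorem gdec (hLPA : LPA) (hHID : HID) (Q : QF K) (hD : Q.D < 0) (f : ℕ) (t : Tpl) (α γ u v θ θ' : 𝓞 K)
    (hT : IsT t) (hf : 1 ≤ f) (hZ : 0 < t.2.2.2) (hL : 0 < lam t) (hE : Els Q f t α γ u v θ θ') :
    ∃ (q b : ℕ) (A a : Ideal (𝓞 K)), q ∣ f ^ 9 ∧ A ∣ Ideal.span {((f ^ 4 : ℕ) : 𝓞 K)} ∧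
      t.2.2.2 = (b : ℤ) * (Ideal.absNorm a : ℤ) ∧ DC Q f q b A a θ := by
  classical
  obtain ⟨h51, h52, hθn⟩ := pow5 hE hZ hL
  have hZ0 : ((t.2.2.2 : ℤ) : 𝓞 K) ≠ 0 := by
    intro h
    exact hZ.ne' (QF.int_inj (K := K) (by rw [h, Int.cast_zero]))
  have hθ0 : θ ≠ 0 := by
    intro h
    rw [h, zero_mul] at hθn
    exact (pow_ne_zero 5 hZ0) hθn.symm
  -- the content of θ
  obtain ⟨x, hx⟩ := Q.exists_re θ
  obtain ⟨y, hy⟩ : ∃ y, y = Q.Y θ := ⟨_, rfl⟩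
  rw [← hy] at hx
  have hc0 : 0 < Int.gcd x y := by
    rw [Nat.pos_iff_ne_zero]
    intro h
    rw [Int.gcd_eq_zero_iff] at h
    apply hθ0
    rw [hx, h.1, h.2]
    simp
  obtain ⟨q, g', hq1, hg'1, hqg, hg'f, hqf⟩ := FA_split f ((Int.gcd x y : ℕ) : ℤ) (by exact_mod_cast hc0)
  have hqg' : Int.gcd x y = q * g' := by exact_mod_cast hqg
  have hqx : (q : ℤ) ∣ x := by
    have h1 : ((Int.gcd x y : ℕ) : ℤ) ∣ x := Int.gcd_dvd_left x y
    rw [hqg] at h1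
    exact (Dvd.intro _ rfl).trans h1
  have hqy : (q : ℤ) ∣ y := by
    have h1 : ((Int.gcd x y : ℕ) : ℤ) ∣ y := Int.gcd_dvd_right x y
    rw [hqg] at h1
    exact (Dvd.intro _ rfl).trans h1
  obtain ⟨x', hx'⟩ := hqx
  obtain ⟨y', hy'⟩ := hqy
  obtain ⟨θ₁, hθ₁⟩ : ∃ θ₁ : 𝓞 K, θ₁ = (x' : 𝓞 K) + y' * Q.ω := ⟨_, rfl⟩
  have hθq : θ = (q : 𝓞 K) * θ₁ := by
    rw [hx, hθ₁, hx', hy']
    push_cast
    ring
  have hq0 : (q : 𝓞 K) ≠ 0 := by exact_mod_cast (by omega : q ≠ 0)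
  have hθ₁0 : θ₁ ≠ 0 := by
    intro h
    rw [h, mul_zero] at hθq
    exact hθ0 hθq
  have hYθ₁ : Q.Y θ₁ = y' := Q.Y_eq hθ₁
  -- primes of `f` do not divide `θ₁`
  have hprim : ∀ p : ℕ, p.Prime → p ∣ f → ¬ (p : 𝓞 K) ∣ θ₁ := by
    intro p hp hpf hdv
    have h1 : ((p : ℤ) : 𝓞 K) ∣ (x' : 𝓞 K) + y' * Q.ω := by
      rw [Int.cast_natCast, ← hθ₁]
      exact hdv
    obtain ⟨h2, h3⟩ := (Q.int_dvd_iff (p : ℤ) (by exact_mod_cast hp.ne_zero) x' y').1 h1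
    have h4 : ((q * p : ℕ) : ℤ) ∣ x := by
      rw [hx']
      push_cast
      exact mul_dvd_mul_left _ h2
    have h5 : ((q * p : ℕ) : ℤ) ∣ y := by
      rw [hy']
      push_cast
      exact mul_dvd_mul_left _ h3
    have h6 : q * p ∣ Int.gcd x y := by
      have h7 := Int.dvd_coe_gcd h4 h5
      exact_mod_cast h7
    rw [hqg'] at h6
    have h7 : p ∣ g' := Nat.dvd_of_mul_dvd_mul_left (by omega) h6
    have h8 : p ∣ Nat.gcd g' f := Nat.dvd_gcd h7 hpf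
    rw [hg'f] at h8
    exact hp.one_lt.ne' (Nat.dvd_one.1 h8)
  -- `q ∣ f ^ 9`
  have hq9 : q ∣ f ^ 9 := by
    rw [← Nat.factorization_le_iff_dvd (by omega) (pow_ne_zero 9 (by omega))]
    intro p
    by_cases hp : p.Prime
    · by_cases hpq : p ∣ q
      · have hpf := hqf p hp hpq
        have h1 : (p : 𝓞 K) ^ q.factorization p ∣ θ := by
          rw [hθq]
          have h2 : (p : 𝓞 K) ^ q.factorization p ∣ (q : 𝓞 K) := by
            obtain ⟨c, hc⟩ := Nat.ordProj_dvd q p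
            refine ⟨(c : 𝓞 K), ?_⟩
            rw [← Nat.cast_pow, ← Nat.cast_mul, ← hc]
          exact h2.mul_right _
        have h3 := gct hE hT hf hZ hL p hp _ h1
        have h4 : 1 ≤ f.factorization p := hp.factorization_pos_of_dvd (by omega) hpf
        rw [Nat.factorization_pow, Finsupp.smul_apply, smul_eq_mul]
        omega
      · rw [Nat.factorization_eq_zero_of_not_dvd hpq]
        exact Nat.zero_le _
    · rw [Nat.factorization_eq_zero_of_not_prime _ hp]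
      exact Nat.zero_le _
  -- `r`
  obtain ⟨r, hr⟩ : ∃ r : ℕ, r = f / Nat.gcd f q := ⟨_, rfl⟩
  have hgpos : 0 < Nat.gcd f q := Nat.gcd_pos_of_pos_left q (by omega)
  have hrf : r ∣ f := by
    rw [hr]
    exact Nat.div_dvd_of_dvd (Nat.gcd_dvd_left f q)
  have hrY : (r : ℤ) ∣ Q.Y θ₁ := by
    have h1 : (f : ℤ) ∣ (q : ℤ) * Q.Y θ₁ := by
      have h2 : Q.Y θ = (q : ℤ) * Q.Y θ₁ := by
        rw [hθq]
        have h3 : (q : 𝓞 K) = ((q : ℤ) : 𝓞 K) := by push_cast; rfl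
        rw [h3, Q.Y_int_mul]
      rw [← h2, hE.yθ]
      exact Dvd.intro _ rfl
    have h2 : f ∣ q * (Q.Y θ₁).natAbs := by
      have h3 := Int.natAbs_dvd_natAbs.2 h1
      rwa [Int.natAbs_natCast, Int.natAbs_mul, Int.natAbs_natCast] at h3
    have h3 : r ∣ (q / Nat.gcd f q) * (Q.Y θ₁).natAbs := by
      rw [hr]
      obtain ⟨c, hc⟩ := h2
      refine ⟨c, ?_⟩
      apply Nat.eq_of_mul_eq_mul_left hgpos
      rw [← mul_assoc, ← mul_assoc, Nat.mul_div_cancel' (Nat.gcd_dvd_right f q),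
        Nat.mul_div_cancel' (Nat.gcd_dvd_left f q), hc]
    have h4 : Nat.Coprime r (q / Nat.gcd f q) := by
      rw [hr]
      exact Nat.coprime_div_gcd_div_gcd hgpos
    exact Int.natCast_dvd.2 (h4.dvd_of_dvd_mul_left h3)
  -- the norm of `θ₁` is coprime to `r`
  have hcor : Nat.Coprime (Ideal.absNorm (Ideal.span {θ₁})) r := by
    rw [Nat.coprime_iff_gcd_eq_one]
    by_contra hne
    obtain ⟨p, hp, hpd⟩ := Nat.exists_prime_and_dvd hne
    have h1 : p ∣ Ideal.absNorm (Ideal.span {θ₁}) := hpd.trans (Nat.gcd_dvd_left _ _)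
    have h2 : p ∣ r := hpd.trans (Nat.gcd_dvd_right _ _)
    obtain ⟨n, hn1, hn2⟩ := Q.exists_norm θ₁
    have h3 : (p : ℤ) ∣ n := by
      have h4 : (p : ℤ) ∣ |n| := by
        rw [← hn2]
        exact_mod_cast h1
      exact (dvd_abs _ _).1 h4
    have h4 : (p : ℤ) ∣ Q.Y θ₁ := by
      have h5 : (p : ℤ) ∣ (r : ℤ) := by exact_mod_cast h2
      exact h5.trans hrY
    exact hprim p hp (h2.trans hrf) (Q.dvd_of_dvd p hp θ₁ n hn1 h4 h3)
  -- the ideals of HID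
  obtain ⟨b₀, g, hb₀, hg, hbg, hgf, hbf⟩ := FA_split f t.2.2.2 hZ
  obtain ⟨a₀, A₀, ha₀, pa₀, na₀, nA₀, hA₀⟩ := hHID K Q f t α γ u v θ θ' hD hT hf hZ hL hE b₀ g hb₀ hg hbg
    hgf hbf
  have hgq : Nat.Coprime g q := by
    rw [Nat.coprime_iff_gcd_eq_one]
    by_contra hne
    obtain ⟨p, hp, hpd⟩ := Nat.exists_prime_and_dvd hne
    have h1 : p ∣ Nat.gcd g f := Nat.dvd_gcd (hpd.trans (Nat.gcd_dvd_left _ _))
      (hqf p hp (hpd.trans (Nat.gcd_dvd_right _ _)))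
    rw [hgf] at h1
    exact hp.one_lt.ne' (Nat.dvd_one.1 h1)
  have hqA₀ : Ideal.span {(q : 𝓞 K)} ∣ A₀ := by
    refine span_dvd_of_mul (a₀ ^ 5) A₀ q ?_ ?_
    · rw [map_pow, na₀]
      exact hgq.pow_left 5
    · rw [← hA₀, hθq, ← Ideal.span_singleton_mul_span_singleton]
      exact Dvd.intro _ rfl
  obtain ⟨A', hA'⟩ := hqA₀
  have hqs0 : Ideal.span {(q : 𝓞 K)} ≠ ⊥ := span_nat_ne_bot q hq1
  have hspan1 : Ideal.span {θ₁} = a₀ ^ 5 * A' := by
    apply mul_left_cancel₀ hqs0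
    rw [Ideal.span_singleton_mul_span_singleton, ← hθq, hA₀, hA']
    ring
  have hA'0 : A' ≠ ⊥ := by
    intro h
    rw [h, Ideal.mul_bot, Ideal.span_singleton_eq_bot] at hspan1
    exact hθ₁0 hspan1
  have hnA' : b₀ ^ 5 = q ^ 2 * Ideal.absNorm A' := by
    rw [← nA₀, hA', map_mul, h96_norm_q Q q]
  have hsupp : ∀ p : ℕ, p.Prime → p ∣ Ideal.absNorm A' → p ∣ f := by
    intro p hp hpA
    apply hbf p hp
    apply hp.dvd_of_dvd_pow (n := 5)
    rw [hnA']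
    exact hpA.mul_left _
  have hprimA' : Prim A' := by
    intro p hp hdv
    have h1 : p ∣ Ideal.absNorm A' := by
      obtain ⟨C, hC⟩ := hdv
      rw [hC, map_mul, h96_norm_q Q p, pow_two, mul_assoc]
      exact Dvd.intro _ rfl
    apply hprim p hp (hsupp p hp h1)
    have h2 : Ideal.span {(p : 𝓞 K)} ∣ Ideal.span {θ₁} := by
      rw [hspan1]
      exact hdv.mul_left _
    exact Ideal.mem_span_singleton.1 (Ideal.dvd_span_singleton.1 h2)
  obtain ⟨a₁, A, hA, hfree⟩ := gp5 hLPA Q _ A' hA'0 hprimA' rfl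
  have ha₁ : a₁ ≠ ⊥ := by
    intro h
    apply hA'0
    have h0 : (⊥ : Ideal (𝓞 K)) ^ 5 = ⊥ := zero_pow (by norm_num)
    rw [hA, h, h0]
    exact Ideal.bot_mul A
  have hA0 : A ≠ ⊥ := by
    intro h
    apply hA'0
    rw [hA, h, Ideal.mul_bot]
  have hnorm' : Ideal.absNorm A' = Ideal.absNorm a₁ ^ 5 * Ideal.absNorm A := by
    rw [hA, map_mul, map_pow]
  have hprim₁ : Prim a₁ := prim_dvd (by rw [hA]; exact (dvd_pow_self a₁ (by norm_num)).mul_right _) hprimA'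
  have hspan2 : Ideal.span {θ₁} = (a₀ * a₁) ^ 5 * A := by
    rw [hspan1, hA]
    ring
  have hn2 : Ideal.absNorm (Ideal.span {θ₁}) = Ideal.absNorm (a₀ * a₁) ^ 5 * Ideal.absNorm A := by
    rw [hspan2, map_mul, map_pow]
  -- `b`
  have hdb : Ideal.absNorm a₁ ∣ b₀ := by
    have h1 : Ideal.absNorm a₁ ^ 5 ∣ b₀ ^ 5 := by
      rw [hnA', hnorm']
      exact (Dvd.intro _ rfl).mul_left _
    exact (Nat.pow_dvd_pow_iff (by norm_num)).1 h1
  obtain ⟨b, hb⟩ := hdb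
  have hb1 : 1 ≤ b := by
    rcases Nat.eq_zero_or_pos b with h | h
    · rw [h, mul_zero] at hb
      omega
    · exact h
  have hbq : b ^ 5 = q ^ 2 * Ideal.absNorm A := by
    have h1 : Ideal.absNorm a₁ ^ 5 * b ^ 5 = Ideal.absNorm a₁ ^ 5 * (q ^ 2 * Ideal.absNorm A) := by
      rw [← mul_pow, ← hb, hnA', hnorm']
      ring
    exact Nat.eq_of_mul_eq_mul_left (Nat.pos_of_ne_zero (pow_ne_zero 5 (norm_ne_zero ha₁))) h1
  refine ⟨q, b, A, a₀ * a₁, hq9, ?_, ?_, ⟨hq1, hb1, mul_ne_zero ha₀ ha₁, ?_, ⟨θ₁, hθq, hspan2, ?_⟩, ?_, ?_, hbq⟩⟩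
  · -- `A ∣ f ^ 4`
    have h1 : Ideal.absNorm A ∣ f ^ 4 := by
      rw [← Nat.factorization_le_iff_dvd (norm_ne_zero hA0) (pow_ne_zero 4 (by omega))]
      intro p
      by_cases hp : p.Prime
      · by_cases hpA : p ∣ Ideal.absNorm A
        · have h2 : p ∣ f := hsupp p hp (by rw [hnorm']; exact hpA.mul_left _)
          have h3 : 1 ≤ f.factorization p := hp.factorization_pos_of_dvd (by omega) h2
          have h4 : (Ideal.absNorm A).factorization p < 5 := by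
            by_contra hcon
            push Not at hcon
            exact hfree p hp ((hp.pow_dvd_iff_le_factorization (norm_ne_zero hA0)).2 hcon)
          rw [Nat.factorization_pow, Finsupp.smul_apply, smul_eq_mul]
          omega
        · rw [Nat.factorization_eq_zero_of_not_dvd hpA]
          exact Nat.zero_le _
      · rw [Nat.factorization_eq_zero_of_not_prime _ hp]
        exact Nat.zero_le _
    obtain ⟨c, hc⟩ := h1
    rw [Ideal.dvd_span_singleton, hc]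
    push_cast
    exact Ideal.mul_mem_right _ _ (Ideal.absNorm_mem A)
  · rw [hbg, map_mul, na₀, hb]
    push_cast
    ring
  · -- primitive
    intro p hp hdv
    by_cases hpf : p ∣ f
    · have h1 : Nat.Coprime (Ideal.absNorm a₀) p := by
        rw [na₀]
        exact hgf.coprime_dvd_right hpf
      exact hprim₁ p hp (span_dvd_of_mul a₀ a₁ p h1 hdv)
    · have h1 : Nat.Coprime (Ideal.absNorm a₁) p := by
        rw [Nat.coprime_comm]
        refine (Nat.Prime.coprime_iff_not_dvd hp).2 fun h2 => hpf (hsupp p hp ?_)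
        rw [hnorm']
        exact (h2.trans (dvd_pow_self _ (by norm_num))).mul_right _
      rw [mul_comm] at hdv
      exact pa₀ p hp (span_dvd_of_mul a₁ a₀ p h1 hdv)
  · rw [← hr]
    exact hrY
  · rw [← hr]
    rw [hn2] at hcor
    exact Nat.Coprime.coprime_dvd_left ((dvd_pow_self _ (by norm_num : (5 : ℕ) ≠ 0)).mul_right _) hcor
  · rw [← hr]
    rw [hn2] at hcor
    exact Nat.Coprime.coprime_dvd_left (Dvd.intro_left _ rfl) hcor

end Pool.Agent.helper4.T6L
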