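import Pool.Agent.helper4.T6L.Lift
import Pool.Agent.helper42.T5.HGA

set_option autoImplicit false

/-!
# T6L, block G: the ideals of one class, modulus `r` (prime powers allowed)
-/

namespace Pool.Agent.helper4.T6L

open Finset NumberField Pool.Agent.helper3.FT Pool.Agent.helper47.RA Pool.Agent.T5 Pool.Agent.helper26.T5

variable {K : Type} [Field K] [NumberField K]

/-- separation modulo `r` -/
theorem sep (Q : QF K) (r : ℕ) (h5 : ∀ p : ℕ, p.Prime → p ∣ r → 5 < p) (w : 𝓞 K) (N : ℤ)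
    (hN : w * Q.cj w = (N : 𝓞 K)) (hco : IsCoprime N (r : ℤ))
    (h1 : ∀ p : ℕ, p.Prime → p ∣ r → (p : ℤ) ∣ Q.Y w) (hr : (r : ℤ) ∣ Q.Y (w ^ 5)) : (r : ℤ) ∣ Q.Y w := by
  rw [Int.natCast_dvd]
  rw [Nat.dvd_iff_prime_pow_dvd_dvd]
  intro p k hp hpk
  rcases Nat.eq_zero_or_pos k with h0 | hk
  · rw [h0, pow_zero]
    exact one_dvd _
  have hpr : p ∣ r := (dvd_pow_self p (by omega)).trans hpk
  have h2 : (p : ℤ) ^ k ∣ Q.Y (w ^ 5) := by
    have h3 : ((p ^ k : ℕ) : ℤ) ∣ (r : ℤ) := by exact_mod_cast hpk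
    have h4 := h3.trans hr
    exact_mod_cast h4
  have hpN : ¬ (p : ℤ) ∣ N := by
    intro h
    have h3 : (p : ℤ) ∣ (r : ℤ) := by exact_mod_cast hpr
    have h4 := hco.isUnit_of_dvd' h h3
    have h5 := Int.isUnit_iff.1 h4
    have h6 := hp.one_lt
    omega
  have h3 := lift5 Q p hp (by have := h5 p hp hpr; omega) w N hN hpN (h1 p hp hpr) k h2
  have h4 : ((p ^ k : ℕ) : ℤ) ∣ Q.Y w := by exact_mod_cast h3
  exact Int.natCast_dvd.1 h4

/-- the generator `z` of `a * bar a₀` -/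
theorem ga_z (hHPR : HPR) (Q : QF K) (r : ℕ) (A : Ideal (𝓞 K)) (hD : Q.D < 0)
    (hA : A ≠ ⊥) (hAr : Nat.Coprime (Ideal.absNorm A) r) (a a₀ : Ideal (𝓞 K)) (ha : a ≠ ⊥) (ha₀ : a₀ ≠ ⊥)
    (pa : Prim a) (pa₀ : Prim a₀) (hne : a ≠ a₀) (θ θ₀ : 𝓞 K) (hθ : Ideal.span {θ} = a ^ 5 * A)
    (hθ₀ : Ideal.span {θ₀} = a₀ ^ 5 * A) (hf : (r : ℤ) ∣ Q.Y θ) (hf₀ : (r : ℤ) ∣ Q.Y θ₀)
    (hpr : (a * Q.bar a₀).IsPrincipal) :
    ∃ z : 𝓞 K, Ideal.span {z} = a * Q.bar a₀ ∧ 0 < Q.Y z ∧ (r : ℤ) ∣ Q.Y (z ^ 5) := by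
  obtain ⟨w, hw⟩ := hpr
  have hw' : Ideal.span {w} = a * Q.bar a₀ := hw.symm
  obtain ⟨b, hb⟩ : ∃ b : ℕ, b = Ideal.absNorm A := ⟨_, rfl⟩
  have hb1 : b ≠ 0 := by
    rw [hb, Ne, Ideal.absNorm_eq_zero_iff]
    exact hA
  -- the unit
  have h1 : Ideal.span {θ * Q.cj θ₀} = Ideal.span {(b : 𝓞 K) * w ^ 5} := by
    rw [← Ideal.span_singleton_mul_span_singleton, ← Ideal.span_singleton_mul_span_singleton,
      ← Ideal.span_singleton_pow, hw', hθ, ← Q.bar_span, hθ₀,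
      Q.bar_mul, Q.bar_pow]
    have h2 : A * Q.bar A = Ideal.span {(b : 𝓞 K)} := by
      rw [Q.mul_bar, hb]
    calc a ^ 5 * A * (Q.bar a₀ ^ 5 * Q.bar A) = (A * Q.bar A) * (a * Q.bar a₀) ^ 5 := by ring
      _ = _ := by rw [h2]
  rw [Ideal.span_singleton_eq_span_singleton] at h1
  obtain ⟨ε, hε⟩ := h1.symm
  have hε12 : ((ε : 𝓞 K)) ^ 12 = 1 := Pool.Agent.helper28.LT.unit_pow Q hD _ ε.isUnit
  set z₁ : 𝓞 K := (ε : 𝓞 K) ^ 5 * w with hz₁
  have hz5 : (b : 𝓞 K) * z₁ ^ 5 = θ * Q.cj θ₀ := by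
    rw [← hε, hz₁]
    have h3 : ((ε : 𝓞 K) ^ 5 * w) ^ 5 = ((ε : 𝓞 K) ^ 12) ^ 2 * ε * w ^ 5 := by ring
    rw [h3, hε12]
    ring
  have hspan : Ideal.span {z₁} = a * Q.bar a₀ := by
    rw [← hw', hz₁, mul_comm]
    exact Ideal.span_singleton_mul_right_unit (ε.isUnit.pow 5) w
  have hYz : Q.Y z₁ ≠ 0 := by
    intro h
    apply hne
    apply HGA_eq hHPR Q a₀ a ha₀ ha pa₀ pa z₁ _ h
    rw [hspan, mul_comm]
  have hdiv : (r : ℤ) ∣ Q.Y (z₁ ^ 5) := by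
    have h3 : (r : ℤ) ∣ Q.Y (θ * Q.cj θ₀) := QF.h96_Y_mul Q _ hf (QF.h96_Y_cj Q _ hf₀)
    rw [← hz5] at h3
    have h4 : (b : 𝓞 K) = ((b : ℤ) : 𝓞 K) := by push_cast; rfl
    rw [h4, Q.Y_int_mul] at h3
    have h5 : IsCoprime (r : ℤ) (b : ℤ) := by
      rw [hb]
      exact (Nat.isCoprime_iff_coprime.2 hAr).symm
    exact h5.dvd_of_dvd_mul_left h3
  rcases lt_or_gt_of_ne hYz with h | h
  · refine ⟨-z₁, ?_, ?_, ?_⟩
    · rw [Ideal.span_singleton_neg, hspan]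
    · have h3 : -z₁ = ((-1 : ℤ) : 𝓞 K) * z₁ := by push_cast; ring
      rw [h3, Q.Y_int_mul]
      omega
    · have h3 : (-z₁) ^ 5 = ((-1 : ℤ) : 𝓞 K) * z₁ ^ 5 := by push_cast; ring
      rw [h3, Q.Y_int_mul]
      exact hdiv.mul_left _
  · exact ⟨z₁, hspan, h, hdiv⟩

/-- **GA** -/
theorem ga (hLEMB : LEMB) (hLPR : LPR) (hHLN : HLN) (hHPR : HPR) (Q : QF K) (r : ℕ) (A : Ideal (𝓞 K))
    (Y : ℝ) (hD : Q.D < 0) (hr1 : 1 ≤ r) (hr5 : ∀ p : ℕ, p.Prime → p ∣ r → 5 < p)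
    (hA : A ≠ ⊥) (hAr : Nat.Coprime (Ideal.absNorm A) r) (hY : 0 < Y) (S : Finset (Ideal (𝓞 K)))
    (hS : ∀ a ∈ S, a ≠ ⊥ ∧ Prim a ∧ Nat.Coprime (Ideal.absNorm a) r ∧ (Ideal.absNorm a : ℝ) ≤ Y ∧
      ∃ θ : 𝓞 K, Ideal.span {θ} = a ^ 5 * A ∧ (r : ℤ) ∣ Q.Y θ)
    (hpr : ∀ a ∈ S, ∀ a' ∈ S, (a * Q.bar a').IsPrincipal) :
    (S.card : ℝ) ≤ 6 ^ r.primeFactors.card * (1 + 2 * Real.pi * Y / (r * √|(Q.D : ℝ)|)) + 1 := by
  classical
  have hD0 : Q.D ≠ 0 := hD.ne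
  have hsD : 0 < √|(Q.D : ℝ)| := by
    apply Real.sqrt_pos.2
    rw [abs_pos]
    exact_mod_cast hD0
  have hrR : (0 : ℝ) < r := by exact_mod_cast hr1
  set B : ℝ := 1 + 2 * Real.pi * Y / (r * √|(Q.D : ℝ)|) with hB
  have hB0 : 0 ≤ B := by
    rw [hB]
    have := Real.pi_pos
    positivity
  rcases S.eq_empty_or_nonempty with hemp | ⟨a₀, ha₀S⟩
  · rw [hemp]
    simp only [Finset.card_empty, Nat.cast_zero]
    positivity
  obtain ⟨ha₀, pa₀, hco₀, hY₀, θ₀, hθ₀, hfθ₀⟩ := hS a₀ ha₀S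
  have hg₀ := HGA_norm_pos a₀ ha₀
  set g₀ : ℕ := Ideal.absNorm a₀ with hg₀def
  have hg₀R : (0 : ℝ) < g₀ := by exact_mod_cast hg₀
  set S' : Finset (Ideal (𝓞 K)) := S.erase a₀ with hS'
  have hz : ∀ a : Ideal (𝓞 K), ∃ z : 𝓞 K, a ∈ S' → (Ideal.span {z} = a * Q.bar a₀ ∧ 0 < Q.Y z ∧
      (r : ℤ) ∣ Q.Y (z ^ 5)) := by
    intro a
    by_cases haS : a ∈ S'
    · obtain ⟨hne, haS1⟩ := Finset.mem_erase.1 haS
      obtain ⟨ha, pa, -, -, θ, hθ, hfθ⟩ := hS a haS1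
      obtain ⟨z, hz⟩ := ga_z hHPR Q r A hD hA hAr a a₀ ha ha₀ pa pa₀ hne θ θ₀ hθ hθ₀ hfθ hfθ₀
        (hpr a haS1 a₀ ha₀S)
      exact ⟨z, fun _ => hz⟩
    · exact ⟨0, fun h => absurd h haS⟩
  choose z hz using hz
  have hlab : ∀ p : ℕ, ∃ lab : 𝓞 K → Fin 6, p.Prime → p ∣ r → ∀ z z' : 𝓞 K,
      (p : ℤ) ∣ Q.Y (z ^ 5) → (p : ℤ) ∣ Q.Y (z' ^ 5) →
      lab z = lab z' → (p : ℤ) ∣ Q.Y (Q.cj z * z') := by
    intro p
    by_cases hp : p.Prime ∧ p ∣ r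
    · obtain ⟨lab, hlab⟩ := hHLN K Q p hp.1 (hr5 p hp.1 hp.2)
      exact ⟨lab, fun _ _ => hlab⟩
    · exact ⟨fun _ => 0, fun h1 h2 => absurd ⟨h1, h2⟩ hp⟩
  choose lab hlab using hlab
  obtain ⟨E, hE1, hE2, hE3, hE4, hE5⟩ := hLEMB K Q hD
  -- the labels
  let L : Ideal (𝓞 K) → (r.primeFactors → Fin 6) := fun a p => lab p (z a)
  have hfib : ∀ l : r.primeFactors → Fin 6, (((S'.filter (fun a => L a = l)).card : ℕ) : ℝ) ≤ B := by
    intro l
    set T : Finset (Ideal (𝓞 K)) := S'.filter (fun a => L a = l) with hT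
    have hTS' : ∀ a ∈ T, a ∈ S' := fun a ha => (Finset.mem_filter.1 ha).1
    have hTL : ∀ a ∈ T, L a = l := fun a ha => (Finset.mem_filter.1 ha).2
    -- two different elements
    have key : ∀ a ∈ T, ∀ a' ∈ T, a ≠ a' → ∃ x : 𝓞 K, Q.cj (z a) * z a' = (g₀ : 𝓞 K) * x ∧
        (r : ℝ) ≤ |(Q.Y x : ℝ)| := by
      intro a haT a' haT' hne
      have haS' := hTS' a haT
      have haS'' := hTS' a' haT'
      obtain ⟨-, haS1⟩ := Finset.mem_erase.1 haS'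
      obtain ⟨-, haS2⟩ := Finset.mem_erase.1 haS''
      obtain ⟨ha, pa, hcoa, -, -⟩ := hS a haS1
      obtain ⟨ha', pa', hcoa', -, -⟩ := hS a' haS2
      obtain ⟨z1, z2, z3⟩ := hz a haS'
      obtain ⟨w1, w2, w3⟩ := hz a' haS''
      have h1 : Ideal.span {Q.cj (z a) * z a'} = Ideal.span {(g₀ : 𝓞 K)} * (Q.bar a * a') := by
        rw [← Ideal.span_singleton_mul_span_singleton, ← Q.bar_span, z1, w1, Q.bar_mul, Q.bar_bar,
          hg₀def, ← Q.mul_bar a₀]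
        ring
      have hg₀K : (g₀ : 𝓞 K) ≠ 0 := by
        have : g₀ ≠ 0 := by omega
        exact_mod_cast this
      obtain ⟨x, hx1, hx2⟩ := exists_div_aux (Q.cj (z a) * z a') (g₀ : 𝓞 K) hg₀K _ h1
      refine ⟨x, hx1, ?_⟩
      have hYx : Q.Y x ≠ 0 := by
        intro h
        exact hne (HGA_eq hHPR Q a a' ha ha' pa pa' x hx2 h).symm
      -- the norm
      obtain ⟨Nw, hNw1, hNw2⟩ := Q.exists_norm (Q.cj (z a) * z a')
      have hNco : IsCoprime Nw (r : ℤ) := by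
        have h2 : Ideal.absNorm (Ideal.span {Q.cj (z a) * z a'}) = g₀ ^ 2 * (Ideal.absNorm a * Ideal.absNorm a') := by
          rw [h1, map_mul, h96_norm_q Q g₀, map_mul, Q.absNorm_bar]
        have h3 : Nat.Coprime (g₀ ^ 2 * (Ideal.absNorm a * Ideal.absNorm a')) r :=
          Nat.Coprime.mul_left (hco₀.pow_left 2) (Nat.Coprime.mul_left hcoa hcoa')
        rw [← h2] at h3
        have h4 : IsCoprime |Nw| (r : ℤ) := by
          rw [← hNw2]
          exact Nat.isCoprime_iff_coprime.2 h3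
        rcases abs_choice Nw with h5 | h5
        · rwa [h5] at h4
        · rw [h5] at h4
          exact (IsCoprime.neg_left_iff _ _).1 h4
      have hrw5 : (r : ℤ) ∣ Q.Y ((Q.cj (z a) * z a') ^ 5) := by
        have e : (Q.cj (z a) * z a') ^ 5 = Q.cj (z a ^ 5) * z a' ^ 5 := by
          rw [map_pow]
          ring
        rw [e]
        exact QF.h96_Y_mul Q _ (QF.h96_Y_cj Q _ z3) w3
      have hrw : (r : ℤ) ∣ Q.Y (Q.cj (z a) * z a') := by
        refine sep Q r hr5 _ Nw hNw1 hNco (fun p hp hpr' => ?_) hrw5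
        have hp1 : p ∈ r.primeFactors := Nat.mem_primeFactors.2 ⟨hp, hpr', by omega⟩
        have hll : lab p (z a) = lab p (z a') := by
          have h2 := congrFun (hTL a haT) ⟨p, hp1⟩
          have h3 := congrFun (hTL a' haT') ⟨p, hp1⟩
          exact h2.trans h3.symm
        have hprZ : (p : ℤ) ∣ (r : ℤ) := by exact_mod_cast hpr'
        exact hlab p hp hpr' (z a) (z a') (hprZ.trans z3) (hprZ.trans w3) hll
      have hrd : (r : ℤ) ∣ Q.Y x := by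
        rw [hx1] at hrw
        have h3 : (g₀ : 𝓞 K) = ((g₀ : ℤ) : 𝓞 K) := by push_cast; rfl
        rw [h3, Q.Y_int_mul] at hrw
        have h4 : IsCoprime (r : ℤ) (g₀ : ℤ) := (Nat.isCoprime_iff_coprime.2 hco₀).symm
        exact h4.dvd_of_dvd_mul_left hrw
      have h2 : (r : ℤ) ≤ |Q.Y x| := Int.le_of_dvd (abs_pos.2 hYx) ((dvd_abs _ _).2 hrd)
      exact_mod_cast h2
    set V : ℝ := g₀ * r * (√|(Q.D : ℝ)| / 2) with hV
    have hV0 : 0 < V := by rw [hV]; positivity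
    set R : ℝ := √(Y * g₀) with hR
    have hR2 : R ^ 2 = Y * g₀ := Real.sq_sqrt (by positivity)
    have hVle : ∀ a ∈ T, ∀ a' ∈ T, a ≠ a' →
        V ≤ |((starRingEnd ℂ) (E (z a)) * E (z a')).im| := by
      intro a haT a' haT' hne
      obtain ⟨x, hx1, hx2⟩ := key a haT a' haT' hne
      rw [← hE3, ← map_mul, hx1, hE2]
      have h3 : (g₀ : 𝓞 K) = ((g₀ : ℤ) : 𝓞 K) := by push_cast; rfl
      rw [h3, Q.Y_int_mul]
      push_cast
      rw [abs_mul, abs_mul, abs_of_pos hg₀R, abs_of_pos (half_pos hsD), hV]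
      exact mul_le_mul_of_nonneg_right (mul_le_mul_of_nonneg_left hx2 hg₀R.le) (half_pos hsD).le
    have hinj : Set.InjOn (fun a => E (z a)) (T : Set (Ideal (𝓞 K))) := by
      intro a haT a' haT' h
      by_contra hne
      have h1 := hVle a haT a' haT' hne
      have h2 : E (z a) = E (z a') := h
      rw [h2, mul_comm, Complex.mul_conj, Complex.ofReal_im, abs_zero] at h1
      linarith
    have hL := hLPR (T.image fun a => E (z a)) R V hV0 (by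
      intro y hy
      obtain ⟨a, haT, rfl⟩ := Finset.mem_image.1 hy
      have haS' := hTS' a haT
      obtain ⟨-, haS1⟩ := Finset.mem_erase.1 haS'
      obtain ⟨ha, pa, -, hYa, -⟩ := hS a haS1
      obtain ⟨z1, z2, z3⟩ := hz a haS'
      constructor
      · rw [hE1, hR]
        apply Real.le_sqrt_of_sq_le
        rw [← hE4, nn, z1, map_mul, Q.absNorm_bar]
        push_cast
        exact mul_le_mul_of_nonneg_right hYa hg₀R.le
      · rw [hE2]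
        have : (0 : ℝ) < Q.Y (z a) := by exact_mod_cast z2
        positivity) (by
      intro y hy y' hy' hyy
      obtain ⟨a, haT, rfl⟩ := Finset.mem_image.1 hy
      obtain ⟨a', haT', rfl⟩ := Finset.mem_image.1 hy'
      exact hVle a haT a' haT' (fun h => hyy (by rw [h])))
    rw [Finset.card_image_of_injOn hinj] at hL
    refine hL.trans ?_
    rw [hB, hR2, add_comm]
    refine add_le_add le_rfl (le_of_eq ?_)
    rw [hV]
    field_simp
  -- sum over the labels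
  have hcard : (S'.card : ℝ) ≤ 6 ^ r.primeFactors.card * B := by
    have h1 : S'.card = ∑ l ∈ (Finset.univ : Finset (r.primeFactors → Fin 6)),
        (S'.filter (fun a => L a = l)).card :=
      Finset.card_eq_sum_card_fiberwise fun a _ => Finset.mem_coe.2 (Finset.mem_univ _)
    rw [h1]
    push_cast
    calc ∑ l ∈ (Finset.univ : Finset (r.primeFactors → Fin 6)),
          (((S'.filter (fun a => L a = l)).card : ℕ) : ℝ)
        ≤ ∑ _l ∈ (Finset.univ : Finset (r.primeFactors → Fin 6)), B :=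
          Finset.sum_le_sum fun l _ => hfib l
      _ = 6 ^ r.primeFactors.card * B := by
          rw [Finset.sum_const, nsmul_eq_mul, Finset.card_univ, Fintype.card_fun, Fintype.card_fin,
            Fintype.card_coe]
          push_cast
          rfl
  have hlast : (S.card : ℝ) = S'.card + 1 := by
    rw [hS', Finset.card_erase_of_mem ha₀S]
    have : 1 ≤ S.card := Finset.card_pos.2 ⟨a₀, ha₀S⟩
    rw [Nat.cast_sub this]
    push_cast
    ring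
  rw [hlast]
  linarith

end Pool.Agent.helper4.T6L
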