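import Pool.Agent.helper26.T5.SpecH

set_option autoImplicit false

/-!
# T6L, block G: lifting a line from `p` to `p ^ j`
-/

namespace Pool.Agent.helper4.T6L

open Finset NumberField Pool.Agent.helper3.FT Pool.Agent.helper47.RA Pool.Agent.T5

theorem Y5 {K : Type} [Field K] [NumberField K] (Q : QF K) (x y : ℤ) :
    Q.Y (((x : 𝓞 K) + y * Q.ω) ^ 5) = y * (5 * x ^ 4 + 10 * Q.t * x ^ 3 * y +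
      10 * (Q.k + Q.t ^ 2) * x ^ 2 * y ^ 2 + 5 * (2 * Q.k * Q.t + Q.t ^ 3) * x * y ^ 3 +
      (Q.k ^ 2 + 3 * Q.k * Q.t ^ 2 + Q.t ^ 4) * y ^ 4) := by
  have h2 : Q.ω ^ 2 = (Q.k : 𝓞 K) + Q.t * Q.ω := by rw [pow_two, Q.hω]
  have h3 : Q.ω ^ 3 = (Q.k * Q.t : 𝓞 K) + (Q.k + Q.t ^ 2) * Q.ω := by
    linear_combination (Q.ω + (Q.t : 𝓞 K)) * h2
  have h4 : Q.ω ^ 4 = (Q.k * (Q.k + Q.t ^ 2) : 𝓞 K) + (2 * Q.k * Q.t + Q.t ^ 3) * Q.ω := by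
    linear_combination Q.ω * h3 + ((Q.k : 𝓞 K) + Q.t ^ 2) * h2
  have h5 : Q.ω ^ 5 = (Q.k * (2 * Q.k * Q.t + Q.t ^ 3) : 𝓞 K) +
      (Q.k ^ 2 + 3 * Q.k * Q.t ^ 2 + Q.t ^ 4) * Q.ω := by
    linear_combination Q.ω * h4 + ((2 : 𝓞 K) * Q.k * Q.t + Q.t ^ 3) * h2
  apply Q.Y_eq (x := x ^ 5 + 10 * x ^ 3 * y ^ 2 * Q.k + 10 * x ^ 2 * y ^ 3 * (Q.k * Q.t) +
    5 * x * y ^ 4 * (Q.k * (Q.k + Q.t ^ 2)) + y ^ 5 * (Q.k * (2 * Q.k * Q.t + Q.t ^ 3)))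
  push_cast
  have e : ((x : 𝓞 K) + y * Q.ω) ^ 5 = x ^ 5 + 5 * x ^ 4 * y * Q.ω + 10 * x ^ 3 * y ^ 2 * Q.ω ^ 2 +
      10 * x ^ 2 * y ^ 3 * Q.ω ^ 3 + 5 * x * y ^ 4 * Q.ω ^ 4 + y ^ 5 * Q.ω ^ 5 := by ring
  rw [e, h5, h4, h3, h2]
  ring

/-- if `p ∣ Y w`, `p ∤ N w`, `p ≠ 5` and `p ^ j ∣ Y (w ^ 5)` then `p ^ j ∣ Y w` -/
theorem lift5 {K : Type} [Field K] [NumberField K] (Q : QF K) (p : ℕ) (hp : p.Prime) (h5 : p ≠ 5)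
    (w : 𝓞 K) (N : ℤ) (hN : w * Q.cj w = (N : 𝓞 K)) (hpN : ¬ (p : ℤ) ∣ N)
    (h1 : (p : ℤ) ∣ Q.Y w) (j : ℕ) (hj : (p : ℤ) ^ j ∣ Q.Y (w ^ 5)) : (p : ℤ) ^ j ∣ Q.Y w := by
  obtain ⟨x, hx⟩ := Q.exists_re w
  have hpp : Prime (p : ℤ) := Nat.prime_iff_prime_int.1 hp
  have hY : Q.Y (w ^ 5) = Q.Y w * (5 * x ^ 4 + 10 * Q.t * x ^ 3 * Q.Y w +
      10 * (Q.k + Q.t ^ 2) * x ^ 2 * Q.Y w ^ 2 + 5 * (2 * Q.k * Q.t + Q.t ^ 3) * x * Q.Y w ^ 3 +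
      (Q.k ^ 2 + 3 * Q.k * Q.t ^ 2 + Q.t ^ 4) * Q.Y w ^ 4) := by
    conv_lhs => rw [hx]
    exact Y5 Q x (Q.Y w)
  have hNx : N = x ^ 2 + Q.t * x * Q.Y w - Q.k * Q.Y w ^ 2 := by
    apply QF.int_inj (K := K)
    rw [← hN]
    have h := Q.norm_form x (Q.Y w)
    rw [← hx] at h
    rw [h]
  have hpx : ¬ (p : ℤ) ∣ x := by
    intro h
    apply hpN
    rw [hNx]
    refine dvd_sub (dvd_add ?_ ?_) ?_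
    · exact h.trans (dvd_pow_self x two_ne_zero)
    · exact h1.mul_left _
    · exact (h1.trans (dvd_pow_self _ two_ne_zero)).mul_left _
  rw [hY] at hj
  have hun : ¬ (p : ℤ) ∣ (5 * x ^ 4 + 10 * Q.t * x ^ 3 * Q.Y w +
      10 * (Q.k + Q.t ^ 2) * x ^ 2 * Q.Y w ^ 2 + 5 * (2 * Q.k * Q.t + Q.t ^ 3) * x * Q.Y w ^ 3 +
      (Q.k ^ 2 + 3 * Q.k * Q.t ^ 2 + Q.t ^ 4) * Q.Y w ^ 4) := by
    intro h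
    have h2 : (p : ℤ) ∣ 5 * x ^ 4 := by
      have e : 5 * x ^ 4 = (5 * x ^ 4 + 10 * Q.t * x ^ 3 * Q.Y w +
        10 * (Q.k + Q.t ^ 2) * x ^ 2 * Q.Y w ^ 2 + 5 * (2 * Q.k * Q.t + Q.t ^ 3) * x * Q.Y w ^ 3 +
        (Q.k ^ 2 + 3 * Q.k * Q.t ^ 2 + Q.t ^ 4) * Q.Y w ^ 4) - Q.Y w * (10 * Q.t * x ^ 3 +
        10 * (Q.k + Q.t ^ 2) * x ^ 2 * Q.Y w + 5 * (2 * Q.k * Q.t + Q.t ^ 3) * x * Q.Y w ^ 2 +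
        (Q.k ^ 2 + 3 * Q.k * Q.t ^ 2 + Q.t ^ 4) * Q.Y w ^ 3) := by ring
      rw [e]
      exact dvd_sub h (h1.mul_right _)
    rcases hpp.dvd_or_dvd h2 with h3 | h3
    · have h4 : p ∣ 5 := by exact_mod_cast h3
      exact h5 ((Nat.prime_dvd_prime_iff_eq hp (by norm_num)).1 h4)
    · exact hpx (hpp.dvd_of_dvd_pow h3)
  exact (((hpp.coprime_iff_not_dvd.2 hun).pow_left).dvd_of_dvd_mul_right hj)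

end Pool.Agent.helper4.T6L
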