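import Pool.Agent.helper46.T6L.SpecO

set_option autoImplicit false

/-! Row t6l:OGD (MP_16912e_nt): the good tuples of one field and one conductor. -/

namespace Pool.Agent.T6L

open Finset NumberField Pool.Agent.helper3.FT Pool.Agent.helper47.RA Pool.Agent.T5
open Pool.Agent.helper26.T5 (nn LEMB LPR LAW LP LPA HLN HPR HSQ HID HCL HGA)
open Pool.Agent.helper28.LT (rad)

theorem OGD_rad : rad 1 = 1 := by
  unfold rad
  simp

theorem OGD (hALG : ALG_stmt) (hOCN : OCN_stmt) (hHGA : HGA) (hLP : LP) (hLAW : LAW) (hLEMB : LEMB) :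
    OGD_stmt := by
  intro K _ _ Q f Y X hfin hD hf hY hX hYD F hF
  classical
  have hD0 : Q.D < 0 := by omega
  have hsD : 0 < √|(Q.D : ℝ)| := by
    apply Real.sqrt_pos.2
    rw [abs_pos]
    exact_mod_cast hD0.ne
  obtain ⟨φ, hφ1, hφ2, hφ3⟩ := hALG K Q hfin hD
  obtain ⟨E, hE1, hE2, hE3, hE4, hE5⟩ := hLEMB K Q hD0
  have hex : ∀ t ∈ F, ∃ (a : Ideal (𝓞 K)) (α γ : 𝓞 K), Adm Q a α γ ∧ gd Q α γ = f ∧ φ a α = t ∧
      (a ^ 5).IsPrincipal ∧ ¬ a.IsPrincipal := by
    intro t ht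
    obtain ⟨h1, h2, h3, h4, h5, h6, h7⟩ := hF t ht
    obtain ⟨a, α, γ, g1, g2, g3, g4, g5⟩ := hφ3 t f hf h1 (by omega) h4 h6 h7
    refine ⟨a, α, γ, g1, g2, g3, g4, g5 h2 ?_⟩
    have h8 : 4 * (t.2.2.2 : ℝ) < -(Q.D : ℝ) := by linarith
    exact_mod_cast h8
  choose! ia al ga hA using hex
  have hTup : ∀ t ∈ F, TupOf Q (ia t) (al t) (ga t) f t := by
    intro t ht
    obtain ⟨g1, g2, g3, -, -⟩ := hA t ht
    have h1 := hφ1 _ _ _ g1
    rw [g2, g3] at h1
    exact h1
  -- (2) one ideal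
  obtain ⟨M, hM⟩ : ∃ M : ℝ, M = 1 + 2 * Real.pi * X / √|(Q.D : ℝ)| := ⟨_, rfl⟩
  have hM0 : 0 ≤ M := by
    rw [hM]
    have := Real.pi_pos
    positivity
  have hone : ∀ a : Ideal (𝓞 K), ((F.filter (fun t => ia t = a)).card : ℝ) ≤ M := by
    intro a
    rcases (F.filter (fun t => ia t = a)).eq_empty_or_nonempty with h0 | ⟨t₀, ht₀⟩
    · rw [h0, Finset.card_empty, Nat.cast_zero]
      exact hM0
    obtain ⟨ht₀F, hia₀⟩ := Finset.mem_filter.1 ht₀
    have hane : a ≠ ⊥ := by
      rw [← hia₀]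
      exact (hA t₀ ht₀F).1.ne
    have hinj : Set.InjOn al (F.filter (fun t => ia t = a) : Set Tpl) := by
      intro s hs t ht he
      obtain ⟨hsF, hs1⟩ := Finset.mem_filter.1 (Finset.mem_coe.1 hs)
      obtain ⟨htF, ht1⟩ := Finset.mem_filter.1 (Finset.mem_coe.1 ht)
      rw [← (hA s hsF).2.2.1, ← (hA t htF).2.2.1, he, hs1, ht1]
    have h1 := hLP K Q a X 1 1 hD0 hane hX le_rfl (Nat.coprime_one_left _) squarefree_one (by norm_num)
      (fun p hp hp1 => absurd (Nat.dvd_one.1 hp1) hp.one_lt.ne') ((F.filter (fun t => ia t = a)).image al)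
      (by
        intro α hα
        obtain ⟨t, ht, rfl⟩ := Finset.mem_image.1 hα
        obtain ⟨htF, ht1⟩ := Finset.mem_filter.1 ht
        obtain ⟨g1, g2, g3, -, -⟩ := hA t htF
        have hT := hTup t htF
        obtain ⟨-, -, -, -, h5, -, -⟩ := hF t htF
        rw [ht1] at g1 hT
        have hne0 : al t ≠ 0 := by
          intro h
          have := g1.n0
          rw [h] at this
          have h2 : Q.Y (0 : 𝓞 K) = 0 := by
            have h3 := Q.Y_int_mul 0 (0 : 𝓞 K)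
            simpa using h3
          omega
        have hlaw := (hLAW K Q a (al t) 2 g1.pa g1.ne Nat.prime_two hne0 g1.mem).1
        refine ⟨⟨g1.mem, g1.n0, ?_⟩, g1.pL, ?_, ?_⟩
        · rw [← hE4, hlaw]
          push_cast
          refine mul_le_mul_of_nonneg_left ?_ (by positivity)
          have h8 : (lamI a (al t) : ℝ) = (lam t : ℝ) := by
            rw [hT.L]
            push_cast
            rfl
          rw [h8]
          exact h5
        · exact_mod_cast one_dvd _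
        · rw [hlaw, one_mul]
          exact Dvd.intro _ rfl)
    rw [Finset.card_image_of_injOn hinj] at h1
    refine h1.trans (le_of_eq ?_)
    rw [hM]
    norm_num
  -- (1) the ideals
  obtain ⟨B, hB⟩ : ∃ B : ℝ, B = 2 + 2 * Real.pi * Y / √|(Q.D : ℝ)| := ⟨_, rfl⟩
  have hB0 : 0 ≤ B := by
    rw [hB]
    have := Real.pi_pos
    positivity
  have hS := hOCN K Q B hB0 (F.image ia) (by
    intro a ha
    obtain ⟨t, ht, rfl⟩ := Finset.mem_image.1 ha
    exact ⟨(hA t ht).1.ne, (hA t ht).2.2.2.1, (hA t ht).2.2.2.2⟩) (by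
    intro T hT hTp
    have h1 := hHGA K Q 1 1 ⊤ Y hD0 le_rfl (fun p hp hp1 => absurd (Nat.dvd_one.1 hp1) hp.one_lt.ne')
      le_rfl (by rw [Ideal.absNorm_top]; norm_num) hY T (by
        intro a ha
        obtain ⟨t, ht, rfl⟩ := Finset.mem_image.1 (hT ha)
        obtain ⟨g1, -, -, g4, -⟩ := hA t ht
        obtain ⟨-, -, h3, -, -, -, -⟩ := hF t ht
        refine ⟨g1.ne, g1.pa, Nat.coprime_one_right _, ?_, ?_⟩
        · have h8 : (Ideal.absNorm (ia t) : ℝ) = (t.2.2.2 : ℝ) := by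
            rw [(hTup t ht).Z]
            push_cast
            rfl
          rw [h8, Nat.cast_one, one_mul]
          exact h3
        · obtain ⟨θ, hθ⟩ := g4
          refine ⟨θ, ?_, ?_⟩
          · rw [Ideal.mul_top]
            exact hθ.symm
          · exact_mod_cast one_dvd _) hTp
    refine h1.trans (le_of_eq ?_)
    rw [hB, OGD_rad, Nat.primeFactors_one, Finset.card_empty, pow_zero, Nat.cast_one]
    ring)
  have hcard : (F.card : ℝ) ≤ ((F.image ia).card : ℝ) * M := by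
    have h1 : F.card = ∑ a ∈ F.image ia, (F.filter (fun t => ia t = a)).card :=
      Finset.card_eq_sum_card_fiberwise fun t ht => Finset.mem_coe.2 (Finset.mem_image_of_mem ia (Finset.mem_coe.1 ht))
    rw [h1]
    push_cast
    calc ∑ a ∈ F.image ia, ((F.filter (fun t => ia t = a)).card : ℝ) ≤ ∑ _a ∈ F.image ia, M :=
          Finset.sum_le_sum fun a _ => hone a
      _ = ((F.image ia).card : ℝ) * M := by rw [Finset.sum_const, nsmul_eq_mul]
  rw [← hB, ← hM]
  exact hcard.trans (mul_le_mul_of_nonneg_right hS hM0)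

end Pool.Agent.T6L
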